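import Pool.Agent.H34.Rect.Mean

/-!
# Averaged pair correlations of a colouring of the plane

For every colouring `c : ℂ → Bool` there is a function `F` of the squared distance, the averaged
pair correlation, such that every linear inequality between products of two signs which holds for
all congruent copies of a finite configuration holds for `F`.
-/

namespace H34.Rect

open Complex

/-- The sign of a colour. -/
def sg (b : Bool) : ℝ := if b then 1 else -1

lemma sg_abs (b : Bool) : |sg b| = 1 := by cases b <;> simp [sg]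

lemma sg_mul_abs (a b : Bool) : |sg a * sg b| ≤ 1 := by
  rw [abs_mul, sg_abs, sg_abs]; norm_num

theorem exists_corr (c : ℂ → Bool) :
    ∃ F : ℝ → ℝ, ∀ {ι : Type} (s : Finset ι) (w : ι → ℝ) (p q : ι → ℂ) (K : ℝ),
      (∀ u : Circle, ∀ z : ℂ,
        ∑ i ∈ s, w i * (sg (c (z + u * p i)) * sg (c (z + u * q i))) ≤ K) →
      ∑ i ∈ s, w i * F (normSq (q i - p i)) ≤ K := by
  obtain ⟨Mc, hMc, hMc'⟩ := exists_mean ℂ
  obtain ⟨Mu, hMu, hMu'⟩ := exists_mean (Additive Circle)
  -- bounded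
  have bd1 : ∀ (u : Circle) (p q : ℂ),
      Bd (fun z : ℂ => sg (c (z + u * p)) * sg (c (z + u * q))) :=
    fun u p q => ⟨1, fun z => sg_mul_abs _ _⟩
  have low : ∀ f : ℂ → ℝ, Bd f → ∀ K : ℝ, (∀ x, K ≤ f x) → K ≤ Mc f := by
    intro f hf K hK
    have := hMc (fun x => (-1) * f x) (hf.smul _) (-K) (fun x => by linarith [hK x])
    have h2 : Mc (fun x => (-1) * f x) = (-1) * Mc f := by
      have : (fun x => (-1) * f x) = (-1 : ℝ) • f := by funext x; simp
      rw [this, map_smul]; simp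
    rw [h2] at this
    linarith
  have Mc_abs : ∀ (u : Circle) (p q : ℂ),
      |Mc (fun z : ℂ => sg (c (z + u * p)) * sg (c (z + u * q)))| ≤ 1 := by
    intro u p q
    rw [abs_le]
    exact ⟨low _ (bd1 u p q) _ fun z => (abs_le.1 (sg_mul_abs _ _)).1,
      hMc _ (bd1 u p q) _ fun z => (abs_le.1 (sg_mul_abs _ _)).2⟩
  have bd2 : ∀ (p q : ℂ),
      Bd (fun u : Additive Circle => Mc (fun z : ℂ => sg (c (z + (u.toMul : ℂ) * p)) * sg (c (z + (u.toMul : ℂ) * q)))) :=
    fun p q => ⟨1, fun u => Mc_abs _ _ _⟩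
  -- the correlation function
  let h : ℂ → ℝ := fun v =>
    Mu (fun u : Additive Circle => Mc (fun z : ℂ => sg (c (z + (u.toMul : ℂ) * 0)) * sg (c (z + (u.toMul : ℂ) * v))))
  have hpair : ∀ p q : ℂ,
      Mu (fun u : Additive Circle => Mc (fun z : ℂ => sg (c (z + (u.toMul : ℂ) * p)) * sg (c (z + (u.toMul : ℂ) * q))))
        = h (q - p) := by
    intro p q
    refine congrArg Mu ?_
    funext u
    have h1 := hMc' _ (bd1 u.toMul 0 (q - p)) ((u.toMul : ℂ) * p)
    rw [← h1]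
    refine congrArg Mc ?_
    funext z
    have e1 : z + (u.toMul : ℂ) * p = z + (u.toMul : ℂ) * p + (u.toMul : ℂ) * 0 := by ring
    have e2 : z + (u.toMul : ℂ) * q = z + (u.toMul : ℂ) * p + (u.toMul : ℂ) * (q - p) := by ring
    rw [← e1, ← e2]
  have hrot : ∀ (w : Circle) (v : ℂ), h (w * v) = h v := by
    intro w v
    have h1 := hMu' _ (bd2 0 v) (Additive.ofMul w)
    show _ = Mu _
    rw [← h1]
    refine congrArg Mu ?_
    funext u
    refine congrArg Mc ?_
    funext z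
    have e1 : (((u + Additive.ofMul w).toMul : Circle) : ℂ) = (u.toMul : ℂ) * (w : ℂ) := by
      simp
    rw [e1]
    have e2 : (u.toMul : ℂ) * ((w : ℂ) * v) = (u.toMul : ℂ) * (w : ℂ) * v := by ring
    rw [e2]
    simp
  have hF : ∀ v : ℂ, h v = h ((Real.sqrt (normSq v) : ℝ) : ℂ) := by
    intro v
    by_cases hv : v = 0
    · subst hv; simp
    · have hn : (‖v‖ : ℝ) ≠ 0 := norm_ne_zero_iff.2 hv
      have hw : v / (‖v‖ : ℝ) ∈ Submonoid.unitSphere ℂ := by
        show v / (‖v‖ : ℝ) ∈ Metric.sphere (0 : ℂ) 1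
        rw [mem_sphere_zero_iff_norm, norm_div]
        simp [hn]
      let w : Circle := ⟨v / (‖v‖ : ℝ), hw⟩
      have e : v = (w : ℂ) * ((‖v‖ : ℝ) : ℂ) := by
        show v = v / ((‖v‖ : ℝ) : ℂ) * ((‖v‖ : ℝ) : ℂ)
        have : ((‖v‖ : ℝ) : ℂ) ≠ 0 := by exact_mod_cast hn
        rw [div_mul_cancel₀ _ this]
      have e2 : Real.sqrt (normSq v) = ‖v‖ := by
        rw [normSq_eq_norm_sq, Real.sqrt_sq (norm_nonneg _)]
      rw [e2]
      conv_lhs => rw [e]
      exact hrot w _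
  refine ⟨fun m => h ((Real.sqrt m : ℝ) : ℂ), ?_⟩
  intro ι s w p q K H
  have step : ∀ i, h ((Real.sqrt (normSq (q i - p i)) : ℝ) : ℂ)
      = Mu (fun u : Additive Circle => Mc (fun z : ℂ => sg (c (z + (u.toMul : ℂ) * p i)) * sg (c (z + (u.toMul : ℂ) * q i)))) := by
    intro i
    rw [hpair, ← hF]
  simp only [step]
  -- linearity of `Mu`
  have e1 : ∑ i ∈ s, w i * Mu (fun u : Additive Circle => Mc (fun z : ℂ => sg (c (z + (u.toMul : ℂ) * p i)) * sg (c (z + (u.toMul : ℂ) * q i))))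
      = Mu (fun u : Additive Circle => ∑ i ∈ s, w i * Mc (fun z : ℂ => sg (c (z + (u.toMul : ℂ) * p i)) * sg (c (z + (u.toMul : ℂ) * q i)))) := by
    have : (fun u : Additive Circle => ∑ i ∈ s, w i * Mc (fun z : ℂ => sg (c (z + (u.toMul : ℂ) * p i)) * sg (c (z + (u.toMul : ℂ) * q i))))
        = ∑ i ∈ s, w i • (fun u : Additive Circle => Mc (fun z : ℂ => sg (c (z + (u.toMul : ℂ) * p i)) * sg (c (z + (u.toMul : ℂ) * q i)))) := by
      funext u
      simp [Finset.sum_apply]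
    rw [this, map_sum]
    refine Finset.sum_congr rfl fun i _ => ?_
    rw [map_smul]; simp
  rw [e1]
  refine hMu _ (Bd.sum s fun i _ => (bd2 (p i) (q i)).smul (w i)) K fun u => ?_
  have e2 : ∑ i ∈ s, w i * Mc (fun z : ℂ => sg (c (z + (u.toMul : ℂ) * p i)) * sg (c (z + (u.toMul : ℂ) * q i)))
      = Mc (fun z : ℂ => ∑ i ∈ s, w i * (sg (c (z + (u.toMul : ℂ) * p i)) * sg (c (z + (u.toMul : ℂ) * q i)))) := by
    have : (fun z : ℂ => ∑ i ∈ s, w i * (sg (c (z + (u.toMul : ℂ) * p i)) * sg (c (z + (u.toMul : ℂ) * q i))))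
        = ∑ i ∈ s, w i • (fun z : ℂ => sg (c (z + (u.toMul : ℂ) * p i)) * sg (c (z + (u.toMul : ℂ) * q i))) := by
      funext u
      simp [Finset.sum_apply]
    rw [this, map_sum]
    refine Finset.sum_congr rfl fun i _ => ?_
    rw [map_smul]; simp
  rw [e2]
  exact hMc _ (Bd.sum s fun i _ => (bd1 u.toMul (p i) (q i)).smul (w i)) K fun z => H _ z

end H34.Rect
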