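import Mathlib

/-!
# The `4 × 4` window

Every 2-colouring of the points `(x, y)`, `0 ≤ x, y ≤ 3` (the point `(x, y)` is the variable
number `4 x + y`) without a monochromatic axis-parallel rectangle of size `1×1`, `1×2`, `1×3`,
`2×2`, `2×3` satisfies a linear inequality between the products of two signs.
-/

namespace H34.Rect

/-- All four colours agree. -/
def mono4 (a b c d : Bool) : Bool := (a == b) && ((b == c) && (c == d))

/-- The product of the signs of two colours. -/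
def si (a b : Bool) : ℤ := if a = b then 1 else -1

set_option synthInstance.maxSize 100000 in
theorem win : 
  ∀ a0 : Bool, 
  ∀ a1 : Bool, 
  ∀ a2 : Bool, 
  ∀ a3 : Bool, 
  ∀ a4 : Bool, 
  ∀ a5 : Bool, (mono4 a0 a1 a4 a5) = false → 
  ∀ a6 : Bool, (mono4 a0 a2 a4 a6 || mono4 a1 a2 a5 a6) = false → 
  ∀ a7 : Bool, (mono4 a0 a3 a4 a7 || mono4 a1 a3 a5 a7 || mono4 a2 a3 a6 a7) = false → 
  ∀ a8 : Bool, 
  ∀ a9 : Bool, (mono4 a0 a1 a8 a9 || mono4 a4 a5 a8 a9) = false → 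
  ∀ a10 : Bool, (mono4 a0 a2 a8 a10 || mono4 a1 a2 a9 a10 || mono4 a4 a6 a8 a10 || mono4 a5 a6 a9 a10) = false → 
  ∀ a11 : Bool, (mono4 a0 a3 a8 a11 || mono4 a1 a3 a9 a11 || mono4 a2 a3 a10 a11 || mono4 a4 a7 a8 a11 || mono4 a5 a7 a9 a11 || mono4 a6 a7 a10 a11) = false → 
  ∀ a12 : Bool, 
  ∀ a13 : Bool, (mono4 a0 a1 a12 a13 || mono4 a4 a5 a12 a13 || mono4 a8 a9 a12 a13) = false → 
  ∀ a14 : Bool, (mono4 a0 a2 a12 a14 || mono4 a1 a2 a13 a14 || mono4 a4 a6 a12 a14 || mono4 a5 a6 a13 a14 || mono4 a8 a10 a12 a14 || mono4 a9 a10 a13 a14) = false → 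
  ∀ a15 : Bool, (mono4 a1 a3 a13 a15 || mono4 a2 a3 a14 a15 || mono4 a4 a7 a12 a15 || mono4 a5 a7 a13 a15 || mono4 a6 a7 a14 a15 || mono4 a8 a11 a12 a15 || mono4 a9 a11 a13 a15 || mono4 a10 a11 a14 a15) = false → 
  556 * (si a0 a1 + si a12 a13 + si a2 a3 + si a14 a15 + si a0 a4 + si a3 a7 + si a8 a12 + si a11 a15)
    + 584 * (si a0 a2 + si a12 a14 + si a1 a3 + si a13 a15 + si a0 a8 + si a3 a11 + si a4 a12 + si a7 a15)
    + 159 * (si a0 a3 + si a12 a15 + si a0 a12 + si a3 a15)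
    + 215 * (si a0 a5 + si a9 a12 + si a3 a6 + si a10 a15)
    + 240 * (si a0 a6 + si a10 a12 + si a3 a5 + si a9 a15 + si a0 a9 + si a3 a10 + si a5 a12 + si a6 a15)
    + (-56) * (si a0 a7 + si a11 a12 + si a3 a4 + si a8 a15 + si a0 a13 + si a3 a14 + si a1 a12 + si a2 a15)
    + 293 * (si a0 a10 + si a6 a12 + si a3 a9 + si a5 a15)
    + (-41) * (si a0 a11 + si a7 a12 + si a3 a8 + si a4 a15 + si a0 a14 + si a3 a13 + si a2 a12 + si a1 a15)
    + (-541) * (si a0 a15 + si a3 a12)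
    + 871 * (si a1 a2 + si a13 a14 + si a4 a8 + si a7 a11)
    + (-244) * (si a1 a4 + si a8 a13 + si a2 a7 + si a11 a14)
    + 597 * (si a1 a5 + si a9 a13 + si a2 a6 + si a10 a14 + si a4 a5 + si a6 a7 + si a8 a9 + si a10 a11)
    + (-14) * (si a1 a6 + si a10 a13 + si a2 a5 + si a9 a14 + si a4 a9 + si a7 a10 + si a5 a8 + si a6 a11)
    + (-240) * (si a1 a7 + si a11 a13 + si a2 a4 + si a8 a14 + si a4 a13 + si a7 a14 + si a1 a8 + si a2 a11)
    + 625 * (si a1 a9 + si a5 a13 + si a2 a10 + si a6 a14 + si a4 a6 + si a5 a7 + si a8 a10 + si a9 a11)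
    + (-187) * (si a1 a11 + si a7 a13 + si a2 a8 + si a4 a14)
    + 990 * (si a1 a13 + si a2 a14 + si a4 a7 + si a8 a11)
    + 270 * (si a1 a14 + si a2 a13 + si a4 a11 + si a7 a8)
    + 332 * (si a5 a6 + si a9 a10 + si a5 a9 + si a6 a10)
    + (-51) * (si a5 a10 + si a6 a9) ≤ (-6846 : ℤ)    := by
  decide +kernel

end H34.Rect
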