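import Pool.Agent.H34.Rect.Core
import Pool.Agent.H34.Rect.Window

/-!
# Every 2-colouring of the plane contains a monochromatic `m × n` rectangle, `m ≤ 2`, `n ≤ 3`

The averaged pair correlation `F` of a colouring without such rectangles satisfies one linear
inequality coming from the `4 × 4` windows of the unit square lattice, and seven linear
inequalities `⟨(∑ bᵢ σ(xᵢ))²⟩ ≥ 1`, `∑ bᵢ` odd, coming from small configurations in four other
planar lattices. These are contradictory.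
-/

namespace H34.Rect

open Complex

/-- The property of `F` provided by `exists_corr`. -/
def Corr (c : ℂ → Bool) (F : ℝ → ℝ) : Prop :=
  ∀ {ι : Type} (s : Finset ι) (w : ι → ℝ) (p q : ι → ℂ) (K : ℝ),
      (∀ u : Circle, ∀ z : ℂ,
        ∑ i ∈ s, w i * (sg (c (z + u * p i)) * sg (c (z + u * q i))) ≤ K) →
      ∑ i ∈ s, w i * F (normSq (q i - p i)) ≤ K

variable {c : ℂ → Bool} {F : ℝ → ℝ}

lemma sg_sq (b : Bool) : sg b * sg b = 1 := by cases b <;> norm_num [sg]

lemma Corr.le_one (h : Corr c F) (m : ℝ) (hm : 0 ≤ m) : F m ≤ 1 := by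
  have := h (ι := Unit) Finset.univ (fun _ => 1) (fun _ => 0)
    (fun _ => ((Real.sqrt m : ℝ) : ℂ)) 1 (fun u z => by
      simpa using (abs_le.1 (sg_mul_abs _ _)).2)
  simpa [normSq_apply, Real.mul_self_sqrt hm] using this

lemma Corr.neg_one_le (h : Corr c F) (m : ℝ) (hm : 0 ≤ m) : -1 ≤ F m := by
  have := h (ι := Unit) Finset.univ (fun _ => -1) (fun _ => 0)
    (fun _ => ((Real.sqrt m : ℝ) : ℂ)) 1 (fun u z => by
      have := (abs_le.1 (sg_mul_abs (c (z + u * 0)) (c (z + u * ((Real.sqrt m : ℝ) : ℂ))))).1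
      simp only [Finset.univ_unique, Finset.sum_singleton]
      linarith)
  simp [normSq_apply, Real.mul_self_sqrt hm] at this
  linarith

lemma Corr.zero (h : Corr c F) : F 0 = 1 := by
  refine le_antisymm (h.le_one 0 le_rfl) ?_
  have := h (ι := Unit) Finset.univ (fun _ => -1) (fun _ => 0)
    (fun _ => 0) (-1) (fun u z => by
      simp only [Finset.univ_unique, Finset.sum_singleton]
      rw [sg_sq]; norm_num)
  simp at this
  exact this

/-- The list form of the property. -/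
lemma Corr.list (h : Corr c F) (L : List (ℝ × ℂ × ℂ)) (K : ℝ)
    (H : ∀ u : Circle, ∀ z : ℂ,
      (L.map fun t => t.1 * (sg (c (z + u * t.2.1)) * sg (c (z + u * t.2.2)))).sum ≤ K) :
    (L.map fun t => t.1 * F (normSq (t.2.2 - t.2.1))).sum ≤ K := by
  have := h (ι := Fin L.length) Finset.univ (fun i => (L[i.1]).1) (fun i => (L[i.1]).2.1)
    (fun i => (L[i.1]).2.2) K (fun u z => by
      have := H u z
      rw [← Fin.sum_univ_fun_getElem] at this
      exact this)
  rw [← Fin.sum_univ_fun_getElem]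
  exact this

/-- The sign of a colour as an integer. -/
def zg (b : Bool) : ℤ := if b then 1 else -1

lemma zg_cast (b : Bool) : ((zg b : ℤ) : ℝ) = sg b := by cases b <;> simp [zg, sg]

lemma zg_odd (b : Bool) : Odd (zg b) := by cases b <;> simp [zg]

lemma odd_sum (L : List (ℤ × ℤ × ℤ)) (g : ℤ → ℤ → Bool) (hL : Odd ((L.map fun t => t.1).sum)) :
    Odd ((L.map fun t => t.1 * zg (g t.2.1 t.2.2)).sum) := by
  have : ∀ L : List (ℤ × ℤ × ℤ), (2 : ℤ) ∣ ((L.map fun t => t.1 * zg (g t.2.1 t.2.2)).sum)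
      - ((L.map fun t => t.1).sum) := by
    intro L
    induction L with
    | nil => simp
    | cons a L ih =>
      obtain ⟨k, hk⟩ := ih
      obtain ⟨l, hl⟩ := zg_odd (g a.2.1 a.2.2)
      refine ⟨k + a.1 * l, ?_⟩
      simp only [List.map_cons, List.sum_cons]
      rw [hl]
      linarith
  obtain ⟨k, hk⟩ := this L
  obtain ⟨l, hl⟩ := hL
  exact ⟨k + l, by linarith⟩

lemma odd_sq {n : ℤ} (h : Odd n) : (1 : ℤ) ≤ n * n := by
  obtain ⟨k, hk⟩ := h
  have : n ≠ 0 := by omega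
  have := Int.one_le_abs this
  nlinarith [abs_mul_abs_self n]

/-- The point with coordinates `(x, y)` in the lattice with norm form `x² + B x y + C y²`. -/
noncomputable def latPt (B C : ℝ) (x y : ℤ) : ℂ :=
  ⟨x + y * (B / 2), y * Real.sqrt (C - B ^ 2 / 4)⟩

lemma normSq_latPt (B C : ℤ) (hBC : 0 ≤ 4 * C - B ^ 2) (x y x' y' : ℤ) :
    normSq (latPt B C x' y' - latPt B C x y) =
      (((x' - x) ^ 2 + B * ((x' - x) * (y' - y)) + C * (y' - y) ^ 2 : ℤ) : ℝ) := by
  have h0 : (0 : ℝ) ≤ (C : ℝ) - (B : ℝ) ^ 2 / 4 := by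
    have : (0 : ℝ) ≤ 4 * (C : ℝ) - (B : ℝ) ^ 2 := by exact_mod_cast hBC
    linarith
  have h1 := Real.mul_self_sqrt h0
  rw [normSq_apply]
  simp only [latPt, Complex.sub_re, Complex.sub_im]
  push_cast
  have : ((y' : ℝ) * √((C : ℝ) - (B : ℝ) ^ 2 / 4) - (y : ℝ) * √((C : ℝ) - (B : ℝ) ^ 2 / 4))
      * ((y' : ℝ) * √((C : ℝ) - (B : ℝ) ^ 2 / 4) - (y : ℝ) * √((C : ℝ) - (B : ℝ) ^ 2 / 4))
      = ((y' : ℝ) - y) ^ 2 * (√((C : ℝ) - (B : ℝ) ^ 2 / 4) * √((C : ℝ) - (B : ℝ) ^ 2 / 4)) := by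
    ring
  rw [this, h1]
  ring

lemma sum_sq_list (L : List (ℤ × ℤ × ℤ)) (f : ℤ × ℤ × ℤ → ℝ) :
    (L.map fun s => (L.map fun t => (s.1 * t.1 : ℝ) * (f s * f t)).sum).sum
      = (L.map fun t => (t.1 : ℝ) * f t).sum * (L.map fun t => (t.1 : ℝ) * f t).sum := by
  have : ∀ L' : List (ℤ × ℤ × ℤ), ∀ a : ℝ, (L'.map fun t => a * ((t.1 : ℝ) * f t)).sum
      = a * (L'.map fun t => (t.1 : ℝ) * f t).sum := by
    intro L' a
    rw [List.sum_map_mul_left]
  have h2 : ∀ s : ℤ × ℤ × ℤ, (L.map fun t => (s.1 * t.1 : ℝ) * (f s * f t)).sum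
      = ((s.1 : ℝ) * f s) * (L.map fun t => (t.1 : ℝ) * f t).sum := by
    intro s
    rw [← this]
    refine congrArg List.sum (List.map_congr_left fun t _ => ?_)
    ring
  simp only [h2]
  rw [List.sum_map_mul_right]

/-- The inequality from an integer combination with odd sum of coefficients. -/
lemma Corr.cut (h : Corr c F) (B C : ℤ) (hBC : 0 ≤ 4 * C - B ^ 2) (L : List (ℤ × ℤ × ℤ))
    (hL : Odd ((L.map fun t => t.1).sum)) :
    1 ≤ (L.map fun s => (L.map fun t => (s.1 * t.1 : ℝ) *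
      F ((((t.2.1 - s.2.1) ^ 2 + B * ((t.2.1 - s.2.1) * (t.2.2 - s.2.2))
        + C * (t.2.2 - s.2.2) ^ 2 : ℤ)) : ℝ)).sum).sum := by
  -- as a sum over pairs
  have key := h (ι := Fin L.length × Fin L.length) Finset.univ
    (fun i => -((L[i.1.1]).1 * (L[i.2.1]).1 : ℝ))
    (fun i => latPt B C (L[i.1.1]).2.1 (L[i.1.1]).2.2)
    (fun i => latPt B C (L[i.2.1]).2.1 (L[i.2.1]).2.2) (-1) ?_
  · simp only [normSq_latPt B C hBC, neg_mul, Finset.sum_neg_distrib] at key
    rw [Fintype.sum_prod_type] at key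
    have e : ∀ G : (ℤ × ℤ × ℤ) → (ℤ × ℤ × ℤ) → ℝ,
        (L.map fun s => (L.map fun t => G s t).sum).sum
          = ∑ i : Fin L.length, ∑ j : Fin L.length, G L[i.1] L[j.1] := by
      intro G
      rw [← Fin.sum_univ_fun_getElem]
      refine Finset.sum_congr rfl fun i _ => ?_
      rw [← Fin.sum_univ_fun_getElem]
    rw [e]
    have := neg_le_neg_iff.1 key
    exact this
  · intro u z
    simp only [neg_mul, Finset.sum_neg_distrib]
    rw [Fintype.sum_prod_type]
    have e : ∀ G : (ℤ × ℤ × ℤ) → (ℤ × ℤ × ℤ) → ℝ,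
        (L.map fun s => (L.map fun t => G s t).sum).sum
          = ∑ i : Fin L.length, ∑ j : Fin L.length, G L[i.1] L[j.1] := by
      intro G
      rw [← Fin.sum_univ_fun_getElem]
      refine Finset.sum_congr rfl fun i _ => ?_
      rw [← Fin.sum_univ_fun_getElem]
    have e2 := e (fun s t => (s.1 * t.1 : ℝ) * (sg (c (z + u * latPt B C s.2.1 s.2.2))
      * sg (c (z + u * latPt B C t.2.1 t.2.2))))
    rw [← e2, neg_le_neg_iff]
    rw [sum_sq_list L (fun s => sg (c (z + u * latPt B C s.2.1 s.2.2)))]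
    have ho := odd_sq (odd_sum L (fun x y => c (z + u * latPt B C x y)) hL)
    have hc : (((L.map fun t => t.1 * zg (c (z + u * latPt B C t.2.1 t.2.2))).sum : ℤ) : ℝ)
        = (L.map fun t => (t.1 : ℝ) * sg (c (z + u * latPt B C t.2.1 t.2.2))).sum := by
      rw [Int.cast_list_sum, List.map_map]
      refine congrArg List.sum (List.map_congr_left fun t _ => ?_)
      simp [zg_cast]
    rw [← hc]
    exact_mod_cast ho

end H34.Rect
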