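import Pool.Agent.H34.Rect.Cuts

/-!
# The contradiction
-/

namespace H34.Rect

open Complex

/-- The rectangles `1×1`, `1×2`, `1×3`, `2×2`, `2×3` and their transposes. -/
def okb (x y x' y' : ℕ) : Bool :=
  (x' == x + 1 && (y' == y + 1 || y' == y + 2 || y' == y + 3)) ||
  (x' == x + 2 && (y' == y + 1 || y' == y + 2 || y' == y + 3)) ||
  (x' == x + 3 && (y' == y + 1 || y' == y + 2))

/-- The weights of the pairs of points of the window. -/
def LW : List (ℤ × ℕ × ℕ × ℕ × ℕ) :=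
  [(556, 0, 0, 0, 1), (556, 3, 0, 3, 1), (556, 0, 2, 0, 3), (556, 3, 2, 3, 3),
   (556, 0, 0, 1, 0), (556, 0, 3, 1, 3), (556, 2, 0, 3, 0), (556, 2, 3, 3, 3),
   (584, 0, 0, 0, 2), (584, 3, 0, 3, 2), (584, 0, 1, 0, 3), (584, 3, 1, 3, 3),
   (584, 0, 0, 2, 0), (584, 0, 3, 2, 3), (584, 1, 0, 3, 0), (584, 1, 3, 3, 3),
   (159, 0, 0, 0, 3), (159, 3, 0, 3, 3), (159, 0, 0, 3, 0), (159, 0, 3, 3, 3),
   (215, 0, 0, 1, 1), (215, 2, 1, 3, 0), (215, 0, 3, 1, 2), (215, 2, 2, 3, 3),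
   (240, 0, 0, 1, 2), (240, 2, 2, 3, 0), (240, 0, 3, 1, 1), (240, 2, 1, 3, 3),
   (240, 0, 0, 2, 1), (240, 0, 3, 2, 2), (240, 1, 1, 3, 0), (240, 1, 2, 3, 3),
   (-56, 0, 0, 1, 3), (-56, 2, 3, 3, 0), (-56, 0, 3, 1, 0), (-56, 2, 0, 3, 3),
   (-56, 0, 0, 3, 1), (-56, 0, 3, 3, 2), (-56, 0, 1, 3, 0), (-56, 0, 2, 3, 3),
   (293, 0, 0, 2, 2), (293, 1, 2, 3, 0), (293, 0, 3, 2, 1), (293, 1, 1, 3, 3),
   (-41, 0, 0, 2, 3), (-41, 1, 3, 3, 0), (-41, 0, 3, 2, 0), (-41, 1, 0, 3, 3),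
   (-41, 0, 0, 3, 2), (-41, 0, 3, 3, 1), (-41, 0, 2, 3, 0), (-41, 0, 1, 3, 3),
   (-541, 0, 0, 3, 3), (-541, 0, 3, 3, 0), (871, 0, 1, 0, 2), (871, 3, 1, 3, 2),
   (871, 1, 0, 2, 0), (871, 1, 3, 2, 3), (-244, 0, 1, 1, 0), (-244, 2, 0, 3, 1),
   (-244, 0, 2, 1, 3), (-244, 2, 3, 3, 2), (597, 0, 1, 1, 1), (597, 2, 1, 3, 1),
   (597, 0, 2, 1, 2), (597, 2, 2, 3, 2), (597, 1, 0, 1, 1), (597, 1, 2, 1, 3),
   (597, 2, 0, 2, 1), (597, 2, 2, 2, 3), (-14, 0, 1, 1, 2), (-14, 2, 2, 3, 1),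
   (-14, 0, 2, 1, 1), (-14, 2, 1, 3, 2), (-14, 1, 0, 2, 1), (-14, 1, 3, 2, 2),
   (-14, 1, 1, 2, 0), (-14, 1, 2, 2, 3), (-240, 0, 1, 1, 3), (-240, 2, 3, 3, 1),
   (-240, 0, 2, 1, 0), (-240, 2, 0, 3, 2), (-240, 1, 0, 3, 1), (-240, 1, 3, 3, 2),
   (-240, 0, 1, 2, 0), (-240, 0, 2, 2, 3), (625, 0, 1, 2, 1), (625, 1, 1, 3, 1),
   (625, 0, 2, 2, 2), (625, 1, 2, 3, 2), (625, 1, 0, 1, 2), (625, 1, 1, 1, 3),
   (625, 2, 0, 2, 2), (625, 2, 1, 2, 3), (-187, 0, 1, 2, 3), (-187, 1, 3, 3, 1),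
   (-187, 0, 2, 2, 0), (-187, 1, 0, 3, 2), (990, 0, 1, 3, 1), (990, 0, 2, 3, 2),
   (990, 1, 0, 1, 3), (990, 2, 0, 2, 3), (270, 0, 1, 3, 2), (270, 0, 2, 3, 1),
   (270, 1, 0, 2, 3), (270, 1, 3, 2, 0), (332, 1, 1, 1, 2), (332, 2, 1, 2, 2),
   (332, 1, 1, 2, 1), (332, 1, 2, 2, 2), (-51, 1, 1, 2, 2), (-51, 1, 2, 2, 1)]

lemma window_ineq (g : ℕ → ℕ → Bool)
    (hg : ∀ x y x' y' : ℕ, okb x y x' y' = true →
      mono4 (g x y) (g x y') (g x' y) (g x' y') = false) :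
    (LW.map fun t => t.1 * si (g t.2.1 t.2.2.1) (g t.2.2.2.1 t.2.2.2.2)).sum ≤ -6846 := by
  have w := win
    (g 0 0)
    (g 0 1)
    (g 0 2)
    (g 0 3)
    (g 1 0)
    (g 1 1) (by
      try simp only [Bool.or_eq_false_iff]
      repeat' apply And.intro
      all_goals exact hg _ _ _ _ rfl)
    (g 1 2) (by
      try simp only [Bool.or_eq_false_iff]
      repeat' apply And.intro
      all_goals exact hg _ _ _ _ rfl)
    (g 1 3) (by
      try simp only [Bool.or_eq_false_iff]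
      repeat' apply And.intro
      all_goals exact hg _ _ _ _ rfl)
    (g 2 0)
    (g 2 1) (by
      try simp only [Bool.or_eq_false_iff]
      repeat' apply And.intro
      all_goals exact hg _ _ _ _ rfl)
    (g 2 2) (by
      try simp only [Bool.or_eq_false_iff]
      repeat' apply And.intro
      all_goals exact hg _ _ _ _ rfl)
    (g 2 3) (by
      try simp only [Bool.or_eq_false_iff]
      repeat' apply And.intro
      all_goals exact hg _ _ _ _ rfl)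
    (g 3 0)
    (g 3 1) (by
      try simp only [Bool.or_eq_false_iff]
      repeat' apply And.intro
      all_goals exact hg _ _ _ _ rfl)
    (g 3 2) (by
      try simp only [Bool.or_eq_false_iff]
      repeat' apply And.intro
      all_goals exact hg _ _ _ _ rfl)
    (g 3 3) (by
      try simp only [Bool.or_eq_false_iff]
      repeat' apply And.intro
      all_goals exact hg _ _ _ _ rfl)
  simp only [LW, List.map_cons, List.map_nil, List.sum_cons, List.sum_nil]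
  linarith

lemma si_cast (a b : Bool) : ((si a b : ℤ) : ℝ) = sg a * sg b := by
  cases a <;> cases b <;> simp [si, sg]

lemma Corr.window {c : ℂ → Bool} {F : ℝ → ℝ} (h : Corr c F)
    (hc : ∀ (u : Circle) (z : ℂ) (x y x' y' : ℕ), okb x y x' y' = true →
      mono4 (c (z + u * latPt 0 1 x y)) (c (z + u * latPt 0 1 x y'))
        (c (z + u * latPt 0 1 x' y)) (c (z + u * latPt 0 1 x' y')) = false) :
    (LW.map fun t => (t.1 : ℝ) * F ((((t.2.2.2.1 : ℤ) - t.2.1) ^ 2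
      + ((t.2.2.2.2 : ℤ) - t.2.2.1) ^ 2 : ℤ) : ℝ)).sum ≤ -6846 := by
  have key := h.list (LW.map fun t => ((t.1 : ℝ), latPt 0 1 t.2.1 t.2.2.1, latPt 0 1 t.2.2.2.1 t.2.2.2.2))
    (-6846) (fun u z => ?_)
  · rw [List.map_map] at key
    refine le_trans (le_of_eq ?_) key
    refine congrArg List.sum (List.map_congr_left fun t _ => ?_)
    have := normSq_latPt 0 1 (by norm_num) (t.2.1 : ℤ) (t.2.2.1 : ℤ) (t.2.2.2.1 : ℤ) (t.2.2.2.2 : ℤ)
    simp only [Int.cast_zero, Int.cast_one] at this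
    simp only [Function.comp]
    rw [this]
    push_cast
    ring_nf
  · have := window_ineq (fun x y => c (z + u * latPt 0 1 x y)) (hc u z)
    rw [List.map_map]
    have e : (((LW.map fun t => t.1 * si (c (z + u * latPt 0 1 t.2.1 t.2.2.1))
        (c (z + u * latPt 0 1 t.2.2.2.1 t.2.2.2.2))).sum : ℤ) : ℝ) = _ :=
      Int.cast_list_sum _
    rw [List.map_map] at e
    have e2 : ((((LW.map fun t => t.1 * si (c (z + u * latPt 0 1 t.2.1 t.2.2.1))
        (c (z + u * latPt 0 1 t.2.2.2.1 t.2.2.2.2))).sum : ℤ)) : ℝ) ≤ ((-6846 : ℤ) : ℝ) := by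
      exact_mod_cast this
    rw [e] at e2
    refine le_trans (le_of_eq ?_) (e2.trans (le_of_eq (by norm_num)))
    refine congrArg List.sum (List.map_congr_left fun t _ => ?_)
    simp [si_cast]

/-- Cut number 1, in the lattice with form `x² + 0 x y + 2 y²`. -/
def C1 : List (ℤ × ℤ × ℤ) :=
  [(1, -1, -1), (1, 0, -1), (1, 1, -1), (-1, 1, 0), (1, 1, 2), (1, 2, -1), (1, 3, -1)]

/-- Cut number 2, in the lattice with form `x² + 0 x y + 2 y²`. -/
def C2 : List (ℤ × ℤ × ℤ) :=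
  [(1, -1, 1), (1, 0, -1), (-1, 0, 0), (1, 0, 1), (-1, 0, 2), (1, 1, -1), (-1, 1, 0), (1, 1, 1), (1, 2, 1)]

/-- Cut number 3, in the lattice with form `x² + 0 x y + 3 y²`. -/
def C3 : List (ℤ × ℤ × ℤ) :=
  [(-1, -2, -1), (-1, -1, -1), (-1, 0, -1), (-1, 1, -1), (-1, 2, -1)]

/-- Cut number 4, in the lattice with form `x² + 1 x y + 1 y²`. -/
def C4 : List (ℤ × ℤ × ℤ) :=
  [(-1, -1, -1), (-1, -1, 0), (-1, -1, 1), (-1, -1, 2), (-1, 0, -1), (-2, 0, 0), (-1, 0, 1), (-1, 1, -1), (-1, 1, 0), (-1, 2, -1)]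

/-- Cut number 5, in the lattice with form `x² + 1 x y + 1 y²`. -/
def C5 : List (ℤ × ℤ × ℤ) :=
  [(-1, -1, 2), (-1, -1, 3), (-1, 0, 1), (-1, 0, 2), (1, 1, -2), (1, 1, -1), (1, 2, -2)]

/-- Cut number 6, in the lattice with form `x² + 1 x y + 2 y²`. -/
def C6 : List (ℤ × ℤ × ℤ) :=
  [(-1, -1, -1), (1, -1, 2), (-1, 0, -1), (-1, 0, 0), (1, 0, 2), (-1, 1, -1), (-1, 1, 0), (-1, 2, -1), (-1, 3, -1)]

/-- Cut number 7, in the lattice with form `x² + 1 x y + 4 y²`. -/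
def C7 : List (ℤ × ℤ × ℤ) :=
  [(-1, -1, -1), (-1, -1, 0), (-1, 0, -1), (-1, 0, 0), (-1, 1, -1), (-1, 1, 0), (-1, 2, -1)]


set_option maxRecDepth 10000 in
/-- A colouring without the rectangles does not exist. -/
theorem contra {c : ℂ → Bool}
    (hc : ∀ (u : Circle) (z : ℂ) (x y x' y' : ℕ), okb x y x' y' = true →
      mono4 (c (z + u * latPt 0 1 x y)) (c (z + u * latPt 0 1 x y'))
        (c (z + u * latPt 0 1 x' y)) (c (z + u * latPt 0 1 x' y')) = false) : False := by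
  obtain ⟨F, h⟩ := exists_corr c
  have h : Corr c F := h
  have w := h.window hc
  have c1 := h.cut 0 2 (by norm_num) C1 (by decide)
  have c2 := h.cut 0 2 (by norm_num) C2 (by decide)
  have c3 := h.cut 0 3 (by norm_num) C3 (by decide)
  have c4 := h.cut 1 1 (by norm_num) C4 (by decide)
  have c5 := h.cut 1 1 (by norm_num) C5 (by decide)
  have c6 := h.cut 1 2 (by norm_num) C6 (by decide)
  have c7 := h.cut 1 4 (by norm_num) C7 (by decide)
  have h0 := h.zero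
  norm_num [LW] at w
  norm_num [C1] at c1
  norm_num [C2] at c2
  norm_num [C3] at c3
  norm_num [C4] at c4
  norm_num [C5] at c5
  norm_num [C6] at c6
  norm_num [C7] at c7
  have up : ∀ m : ℝ, 0 ≤ m → F m ≤ 1 := h.le_one
  have lo : ∀ m : ℝ, 0 ≤ m → -1 ≤ F m := h.neg_one_le
  linarith [up 1 (by norm_num), up 2 (by norm_num), up 3 (by norm_num), up 4 (by norm_num),
    up 6 (by norm_num), up 7 (by norm_num), up 8 (by norm_num), up 9 (by norm_num),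
    up 10 (by norm_num), up 12 (by norm_num), up 13 (by norm_num), up 16 (by norm_num),
    up 18 (by norm_num), up 19 (by norm_num), up 22 (by norm_num),
    lo 1 (by norm_num), lo 2 (by norm_num), lo 3 (by norm_num), lo 4 (by norm_num),
    lo 6 (by norm_num), lo 7 (by norm_num), lo 8 (by norm_num), lo 9 (by norm_num),
    lo 10 (by norm_num), lo 12 (by norm_num), lo 13 (by norm_num), lo 16 (by norm_num),
    lo 18 (by norm_num), lo 19 (by norm_num), lo 22 (by norm_num)]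

end H34.Rect
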