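import Mathlib

/-!
# Invariant means on commutative groups

Every commutative group `G` carries a linear functional on the functions `G → ℝ` which is
positive, normalised and translation invariant on the bounded functions.
-/

namespace H34.Rect

/-- `f` is a bounded real function. -/
def Bd {G : Type*} (f : G → ℝ) : Prop := ∃ C : ℝ, ∀ x, |f x| ≤ C

lemma Bd.add {G : Type*} {f g : G → ℝ} (hf : Bd f) (hg : Bd g) : Bd (fun x => f x + g x) := by
  obtain ⟨C, hC⟩ := hf
  obtain ⟨D, hD⟩ := hg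
  exact ⟨C + D, fun x => (abs_add_le _ _).trans (add_le_add (hC x) (hD x))⟩

lemma Bd.const {G : Type*} (c : ℝ) : Bd (fun _ : G => c) := ⟨|c|, fun _ => le_rfl⟩

lemma Bd.smul {G : Type*} {f : G → ℝ} (hf : Bd f) (c : ℝ) : Bd (fun x => c * f x) := by
  obtain ⟨C, hC⟩ := hf
  refine ⟨|c| * C, fun x => ?_⟩
  rw [abs_mul]
  exact mul_le_mul_of_nonneg_left (hC x) (abs_nonneg _)

lemma Bd.sum {G ι : Type*} (s : Finset ι) {f : ι → G → ℝ} (h : ∀ i ∈ s, Bd (f i)) :
    Bd (fun x => ∑ i ∈ s, f i x) := by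
  classical
  induction s using Finset.induction_on with
  | empty => simpa using Bd.const (G := G) 0
  | insert a s ha ih =>
    simp only [Finset.sum_insert ha]
    exact (h a (Finset.mem_insert_self _ _)).add
      (ih fun i hi => h i (Finset.mem_insert_of_mem hi))

/-- The subspace of bounded functions. -/
def bdSub (G : Type*) : Submodule ℝ (G → ℝ) where
  carrier := {f | Bd f}
  add_mem' := fun hf hg => hf.add hg
  zero_mem' := Bd.const 0
  smul_mem' := fun c _ hf => hf.smul c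

variable {G : Type*} [AddCommGroup G]

/-- Upper bounds of finite averages of translates of `f`. -/
def ubs (f : G → ℝ) : Set ℝ :=
  {r | ∃ (ι : Type) (_ : Fintype ι) (_ : Nonempty ι) (s : ι → G),
    ∀ x, ∑ i, f (x + s i) ≤ Fintype.card ι * r}

lemma ubs_of_le {f : G → ℝ} {K : ℝ} (h : ∀ x, f x ≤ K) : K ∈ ubs f :=
  ⟨Unit, inferInstance, inferInstance, fun _ => 0, fun x => by simpa using h x⟩

lemma ubs_lb {f : G → ℝ} {K : ℝ} (h : ∀ x, K ≤ f x) : ∀ r ∈ ubs f, K ≤ r := by
  rintro r ⟨ι, _, _, s, hs⟩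
  have h1 := hs 0
  have h2 : (Fintype.card ι : ℝ) * K ≤ ∑ i, f (0 + s i) := by
    rw [← nsmul_eq_mul, ← Finset.card_univ, ← Finset.sum_const]
    exact Finset.sum_le_sum fun i _ => h _
  have h3 : (0 : ℝ) < Fintype.card ι := by exact_mod_cast Fintype.card_pos
  exact le_of_mul_le_mul_left (h2.trans h1) h3

lemma ubs_nonempty {f : G → ℝ} (hf : Bd f) : (ubs f).Nonempty := by
  obtain ⟨C, hC⟩ := hf
  exact ⟨C, ubs_of_le fun x => (abs_le.1 (hC x)).2⟩

lemma ubs_bdd {f : G → ℝ} (hf : Bd f) : BddBelow (ubs f) := by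
  obtain ⟨C, hC⟩ := hf
  exact ⟨-C, fun r hr => ubs_lb (fun x => (abs_le.1 (hC x)).1) r hr⟩

/-- The sublinear functional. -/
noncomputable def NN (f : G → ℝ) : ℝ := sInf (ubs f)

lemma NN_le {f : G → ℝ} (hf : Bd f) {K : ℝ} (h : K ∈ ubs f) : NN f ≤ K :=
  csInf_le (ubs_bdd hf) h

lemma ubs_add {f g : G → ℝ} {r r' : ℝ} (hr : r ∈ ubs f) (hr' : r' ∈ ubs g) :
    r + r' ∈ ubs (fun x => f x + g x) := by
  obtain ⟨ι, _, _, s, hs⟩ := hr
  obtain ⟨κ, _, _, t, ht⟩ := hr'
  refine ⟨ι × κ, inferInstance, inferInstance, fun p => s p.1 + t p.2, fun x => ?_⟩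
  rw [Finset.sum_add_distrib, Fintype.sum_prod_type, Fintype.sum_prod_type_right]
  have h1 : ∑ i, ∑ j, f (x + (s i + t j)) ≤ Fintype.card κ * (Fintype.card ι * r) := by
    rw [Finset.sum_comm]
    calc ∑ j, ∑ i, f (x + (s i + t j)) = ∑ j, ∑ i, f ((x + t j) + s i) := by
            refine Finset.sum_congr rfl fun j _ => Finset.sum_congr rfl fun i _ => ?_
            congr 1; abel
      _ ≤ ∑ _j : κ, (Fintype.card ι * r) := Finset.sum_le_sum fun j _ => hs _
      _ = _ := by simp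
  have h2 : ∑ j, ∑ i, g (x + (s i + t j)) ≤ Fintype.card ι * (Fintype.card κ * r') := by
    rw [Finset.sum_comm]
    calc ∑ i, ∑ j, g (x + (s i + t j)) = ∑ i, ∑ j, g ((x + s i) + t j) := by
            refine Finset.sum_congr rfl fun j _ => Finset.sum_congr rfl fun i _ => ?_
            congr 1; abel
      _ ≤ ∑ _i : ι, (Fintype.card κ * r') := Finset.sum_le_sum fun j _ => ht _
      _ = _ := by simp
  have h3 : (Fintype.card (ι × κ) : ℝ) = Fintype.card ι * Fintype.card κ := by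
    rw [Fintype.card_prod]; push_cast; ring
  rw [h3]
  nlinarith [h1, h2]

lemma NN_add {f g : G → ℝ} (hf : Bd f) (hg : Bd g) :
    NN (fun x => f x + g x) ≤ NN f + NN g := by
  have : ∀ r ∈ ubs f, ∀ r' ∈ ubs g, NN (fun x => f x + g x) ≤ r + r' :=
    fun r hr r' hr' => NN_le (hf.add hg) (ubs_add hr hr')
  have h1 : ∀ r ∈ ubs f, NN (fun x => f x + g x) - r ≤ NN g := fun r hr =>
    le_csInf (ubs_nonempty hg) fun r' hr' => by linarith [this r hr r' hr']
  have h2 : NN (fun x => f x + g x) - NN g ≤ NN f :=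
    le_csInf (ubs_nonempty hf) fun r hr => by linarith [h1 r hr]
  linarith

lemma ubs_smul {f : G → ℝ} {c r : ℝ} (hc : 0 < c) (hr : r ∈ ubs f) :
    c * r ∈ ubs (fun x => c * f x) := by
  obtain ⟨ι, _, _, s, hs⟩ := hr
  refine ⟨ι, inferInstance, inferInstance, s, fun x => ?_⟩
  rw [← Finset.mul_sum]
  nlinarith [hs x]

lemma NN_smul_le {f : G → ℝ} (hf : Bd f) {c : ℝ} (hc : 0 < c) :
    NN (fun x => c * f x) ≤ c * NN f := by
  have : c⁻¹ * NN (fun x => c * f x) ≤ NN f :=
    le_csInf (ubs_nonempty hf) fun r hr => by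
      have := NN_le (hf.smul c) (ubs_smul hc hr)
      rw [inv_mul_le_iff₀ hc]; exact this
  rwa [inv_mul_le_iff₀ hc] at this

lemma NN_smul {f : G → ℝ} (hf : Bd f) {c : ℝ} (hc : 0 < c) :
    NN (fun x => c * f x) = c * NN f := by
  refine le_antisymm (NN_smul_le hf hc) ?_
  have h := NN_smul_le (hf.smul c) (inv_pos.2 hc)
  have e : (fun x => c⁻¹ * (c * f x)) = f := by
    funext x; rw [← mul_assoc, inv_mul_cancel₀ hc.ne', one_mul]
  rw [e] at h
  rw [← le_inv_mul_iff₀ hc]
  exact h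

lemma NN_shift {f : G → ℝ} (hf : Bd f) (t : G) : NN (fun x => f x + (-1) * f (x + t)) ≤ 0 := by
  obtain ⟨C, hC⟩ := id hf
  have hC0 : 0 ≤ C := (abs_nonneg _).trans (hC 0)
  have hb : Bd (fun x => f x + (-1) * f (x + t)) := by
    refine hf.add (Bd.smul (f := fun x => f (x + t)) ⟨C, fun x => hC _⟩ (-1))
  have key : ∀ n : ℕ, NN (fun x => f x + (-1) * f (x + t)) ≤ 2 * C / (n + 1) := by
    intro n
    refine NN_le hb ⟨Fin (n + 1), inferInstance, inferInstance, fun i => (i : ℕ) • t, fun x => ?_⟩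
    have h1 : ∑ i : Fin (n + 1), (f (x + (i : ℕ) • t) + (-1) * f (x + (i : ℕ) • t + t))
        = f x - f (x + (n + 1) • t) := by
      rw [Fin.sum_univ_eq_sum_range (fun i : ℕ => f (x + i • t) + (-1) * f (x + i • t + t))]
      have : ∀ m : ℕ, ∑ i ∈ Finset.range m, (f (x + i • t) + (-1) * f (x + i • t + t))
          = f x - f (x + m • t) := by
        intro m
        induction m with
        | zero => simp
        | succ m ih =>
          rw [Finset.sum_range_succ, ih]
          simp only [succ_nsmul, add_assoc]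
          ring
      exact this _
    rw [h1]
    have h2 := (abs_le.1 (hC x)).2
    have h3 := (abs_le.1 (hC (x + (n + 1) • t))).1
    have h4 : ((Fintype.card (Fin (n + 1)) : ℕ) : ℝ) * (2 * C / (n + 1)) = 2 * C := by
      rw [Fintype.card_fin]; push_cast
      have : (n : ℝ) + 1 ≠ 0 := by positivity
      field_simp
    rw [h4]
    linarith
  refine le_of_forall_pos_le_add fun ε hε => ?_
  obtain ⟨n, hn⟩ := exists_nat_gt (2 * C / ε)
  have h5 : 2 * C / (n + 1) ≤ ε := by
    rw [div_le_iff₀ (by positivity)]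
    rw [div_lt_iff₀ hε] at hn
    nlinarith
  linarith [key n]

/-- Existence of an invariant mean on a commutative group. -/
theorem exists_mean (G : Type*) [AddCommGroup G] :
    ∃ M : (G → ℝ) →ₗ[ℝ] ℝ,
      (∀ f : G → ℝ, Bd f → ∀ K : ℝ, (∀ x, f x ≤ K) → M f ≤ K) ∧
      (∀ f : G → ℝ, Bd f → ∀ t, M (fun x => f (x + t)) = M f) := by
  obtain ⟨g, -, hg⟩ := exists_extension_of_le_sublinear (E := bdSub G) ⊥
    (fun f => NN (f : G → ℝ))
    (by
      intro c hc f
      exact NN_smul f.2 hc)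
    (by
      intro f g
      exact NN_add f.2 g.2)
    (by
      rintro ⟨x, hx⟩
      have hx0 : x = 0 := (Submodule.mem_bot ℝ).1 hx
      subst hx0
      have h1 : (⊥ : (bdSub G) →ₗ.[ℝ] ℝ) ⟨0, hx⟩ = 0 := by
        exact LinearPMap.map_zero _
      rw [h1]
      exact le_csInf (ubs_nonempty (Bd.const 0)) (ubs_lb fun x => le_rfl))
  obtain ⟨M, hM⟩ := g.exists_extend
  have hM' : ∀ f : G → ℝ, ∀ hf : Bd f, M f = g ⟨f, hf⟩ := by
    intro f hf
    rw [← hM]; rfl
  have hle : ∀ f : G → ℝ, Bd f → M f ≤ NN f := by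
    intro f hf
    rw [hM' f hf]
    exact hg ⟨f, hf⟩
  refine ⟨M, fun f hf K hK => (hle f hf).trans (NN_le hf (ubs_of_le hK)), ?_⟩
  have hinv : ∀ f : G → ℝ, Bd f → ∀ t, M f ≤ M (fun x => f (x + t)) := by
    intro f hf t
    obtain ⟨C, hC⟩ := id hf
    have hb : Bd (fun x => f x + (-1) * f (x + t)) :=
      hf.add (Bd.smul (f := fun x => f (x + t)) ⟨C, fun x => hC _⟩ (-1))
    have h1 := (hle _ hb).trans (NN_shift hf t)
    have h2 : M (fun x => f x + (-1) * f (x + t)) = M f + (-1) * M (fun x => f (x + t)) := by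
      have : (fun x => f x + (-1) * f (x + t)) = f + (-1 : ℝ) • (fun x => f (x + t)) := by
        funext x; simp
      rw [this, map_add, map_smul]; simp
    rw [h2] at h1
    linarith
  intro f hf t
  refine le_antisymm ?_ (hinv f hf t)
  have hf' : Bd (fun x => f (x + t)) := by
    obtain ⟨C, hC⟩ := hf
    exact ⟨C, fun x => hC _⟩
  have := hinv _ hf' (-t)
  simpa using this

end H34.Rect
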